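import Pool.Agent.Helper14.TL7.StD

/-!
# Project TL (levels `4·7^n`), module LIFP: lifting solutions of the relations to the integers
-/

set_option autoImplicit false

namespace Pool.Agent.Helper89.TL7

open Pool.Agent.Helper14.TL7
open Pool.Agent.Helper84.S7 Pool.Agent.Helper4.S7 Pool.Agent.Helper76.S7

private abbrev Pq (r s : ℕ) : Type := ZMod (7 ^ r) × ZMod (7 ^ s)

private def mu {r s : ℕ} (a b c d : ℤ) (p : Pq r s) : Pq r s :=
  tr7 a b c d (fun x y => ((x, y) : Pq r s)) p.1 p.2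

private theorem mu_mul (hTrm : S7Trm) {r s : ℕ} {a b c d a' b' c' d' : ℤ} (h1 : ¬ 7 ∣ a)
    (h2 : ¬ 7 ∣ d) (h3 : ¬ 7 ∣ a') (h4 : ¬ 7 ∣ d') (p : Pq r s) :
    mu a' b' c' d' (mu a b c d p) =
      mu (a * a' + 7 * b * c') (a * b' + b * d') (c * a' + d * c') (7 * c * b' + d * d') p := by
  have h := congrFun (congrFun ((hTrm (Pq r s) r s (fun x y => (x, y))).1 a b c d a' b' c' d'
    h1 h2 h3 h4) p.1) p.2
  exact h

private theorem mu_one (hTrm : S7Trm) {r s : ℕ} (p : Pq r s) : mu 1 0 0 1 p = p := by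
  have h := congrFun (congrFun (hTrm (Pq r s) r s (fun x y => (x, y))).2.1 p.1) p.2
  exact h

private theorem mu_neg (hTrm : S7Trm) {r s : ℕ} {a b c d : ℤ} (h1 : ¬ 7 ∣ a) (h2 : ¬ 7 ∣ d)
    (p : Pq r s) : mu (-a) (-b) (-c) (-d) p = mu a b c d p := by
  have h := congrFun (congrFun ((hTrm (Pq r s) r s (fun x y => (x, y))).2.2 (-1) a b c d
    (by norm_num) h1 h2) p.1) p.2
  simp only [neg_one_mul] at h
  exact h

/-- `T`, `ρ1`, `ρ2` on points. -/
private def mT {r s : ℕ} : Pq r s → Pq r s := mu 1 1 0 1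
private def m1 {r s : ℕ} : Pq r s → Pq r s := mu 2 (-1) 1 (-3)
private def m2 {r s : ℕ} : Pq r s → Pq r s := mu 5 (-3) 1 (-4)

private theorem m11 (hTrm : S7Trm) {r s : ℕ} (p : Pq r s) : m1 (m1 p) = mu 3 (-1) 1 (-2) p := by
  unfold m1
  rw [mu_mul hTrm (by norm_num) (by norm_num) (by norm_num) (by norm_num),
    ← mu_neg hTrm (a := 3) (by norm_num) (by norm_num)]
  norm_num

private theorem m111 (hTrm : S7Trm) {r s : ℕ} (p : Pq r s) : m1 (m1 (m1 p)) = p := by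
  rw [m11 hTrm]
  unfold m1
  rw [mu_mul hTrm (by norm_num) (by norm_num) (by norm_num) (by norm_num)]
  norm_num
  have h := mu_neg hTrm (a := 1) (b := 0) (c := 0) (d := 1) (by norm_num) (by norm_num) p
  rw [mu_one hTrm] at h
  norm_num at h
  exact h

private theorem m22 (hTrm : S7Trm) {r s : ℕ} (p : Pq r s) : m2 (m2 p) = mu 4 (-3) 1 (-5) p := by
  unfold m2
  rw [mu_mul hTrm (by norm_num) (by norm_num) (by norm_num) (by norm_num)]
  norm_num

private theorem m222 (hTrm : S7Trm) {r s : ℕ} (p : Pq r s) : m2 (m2 (m2 p)) = p := by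
  rw [m22 hTrm]
  unfold m2
  rw [mu_mul hTrm (by norm_num) (by norm_num) (by norm_num) (by norm_num)]
  norm_num
  have h := mu_neg hTrm (a := 1) (b := 0) (c := 0) (d := 1) (by norm_num) (by norm_num) p
  rw [mu_one hTrm] at h
  norm_num at h
  exact h

private theorem mT2 (hTrm : S7Trm) {r s : ℕ} (p : Pq r s) : mT (m2 p) = mu 5 2 1 3 p := by
  unfold mT m2
  rw [mu_mul hTrm (by norm_num) (by norm_num) (by norm_num) (by norm_num)]
  norm_num

private theorem mT22 (hTrm : S7Trm) {r s : ℕ} (p : Pq r s) : mT (m2 (m2 p)) = mu 4 1 1 2 p := by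
  rw [m22 hTrm]
  unfold mT
  rw [mu_mul hTrm (by norm_num) (by norm_num) (by norm_num) (by norm_num)]
  norm_num

private theorem mT_iter (hTrm : S7Trm) {r s : ℕ} (p : Pq r s) (n : ℕ) :
    mT^[n] p = mu 1 (n : ℤ) 0 1 p := by
  induction n with
  | zero =>
    rw [Function.iterate_zero, id, Nat.cast_zero, mu_one hTrm]
  | succ n ih =>
    rw [Function.iterate_succ_apply', ih]
    unfold mT
    rw [mu_mul hTrm (by norm_num) (by norm_num) (by norm_num) (by norm_num)]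
    push_cast
    congr 1; ring

private theorem mT_period (hTrm : S7Trm) {r s : ℕ} (p : Pq r s) : mT^[7 ^ (r + s)] p = p := by
  rw [mT_iter hTrm]
  have hx : ((7 ^ (r + s) : ℕ) : ZMod (7 ^ r)) = 0 := by
    rw [ZMod.natCast_eq_zero_iff]
    exact pow_dvd_pow 7 (Nat.le_add_right r s)
  have hy : ((7 ^ (r + s) : ℕ) : ZMod (7 ^ s)) = 0 := by
    rw [ZMod.natCast_eq_zero_iff]
    exact pow_dvd_pow 7 (Nat.le_add_left s r)
  have i1 : ((1 : ZMod (7 ^ r)))⁻¹ = 1 := ZMod.inv_eq_of_mul_eq_one _ _ _ (by ring)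
  have i2 : ((1 : ZMod (7 ^ s)))⁻¹ = 1 := ZMod.inv_eq_of_mul_eq_one _ _ _ (by ring)
  obtain ⟨x, y⟩ := p
  unfold mu tr7
  simp only [Int.cast_natCast, hx, hy, Int.cast_zero, Int.cast_one, mul_zero, zero_mul, add_zero,
    zero_add, one_mul, i1, i2, mul_one]

private theorem alt_sum (u : ℕ → ℤ) (n : ℕ) :
    ∑ i ∈ Finset.range n, (-1) ^ i * u i + ∑ i ∈ Finset.range n, (-1) ^ i * u (i + 1) =
      u 0 - (-1) ^ n * u n := by
  induction n with
  | zero => simp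
  | succ n ih =>
    rw [Finset.sum_range_succ, Finset.sum_range_succ, pow_succ]
    linear_combination ih

private theorem odd_pow_neg (r s : ℕ) : (-1 : ℤ) ^ (7 ^ (r + s)) = -1 :=
  Odd.neg_one_pow (Odd.pow (by decide))

private theorem odd_pow_neg' (r s : ℕ) : (-1 : ZMod 7) ^ (7 ^ (r + s)) = -1 :=
  Odd.neg_one_pow (Odd.pow (by decide))

/-- the solution of `F + T F = 2 h` -/
private def sol {r s : ℕ} (h : Pq r s → ℤ) (p : Pq r s) : ℤ :=
  ∑ i ∈ Finset.range (7 ^ (r + s)), (-1) ^ i * h (mT^[i] p)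

private theorem sol_add (hTrm : S7Trm) {r s : ℕ} (h : Pq r s → ℤ) (p : Pq r s) :
    sol h p + sol h (mT p) = 2 * h p := by
  unfold sol
  have e := alt_sum (fun i => h (mT^[i] p)) (7 ^ (r + s))
  simp only [Function.iterate_succ_apply] at e
  rw [e, odd_pow_neg, mT_period hTrm]
  simp only [Function.iterate_zero, id]
  ring

private theorem inj_T (hTrm : S7Trm) {r s : ℕ} (g : Pq r s → ZMod 7)
    (hg : ∀ p, g p + g (mT p) = 0) (p : Pq r s) : g p = 0 := by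
  have h1 : ∀ n : ℕ, g (mT^[n] p) = (-1) ^ n * g p := by
    intro n
    induction n with
    | zero => simp
    | succ n ih =>
      rw [Function.iterate_succ_apply']
      have h2 := hg (mT^[n] p)
      rw [pow_succ]
      linear_combination h2 - ih
  have h3 := h1 (7 ^ (r + s))
  rw [mT_period hTrm, odd_pow_neg'] at h3
  have h4 : (2 : ZMod 7) * g p = 0 := by linear_combination h3
  have h7 : (7 : ZMod 7) = 0 := by decide
  linear_combination 4 * h4 - g p * h7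

theorem hLifp (ht : S7Trm) : TLifp := by
  intro r s f hf
  obtain ⟨hf1, hf2⟩ := hf
  let gf : Pq r s → ZMod 7 := fun p => f 1 p.1 p.2
  let kf : Pq r s → ZMod 7 := fun p => f 0 p.1 p.2 + f 0 (mT p).1 (mT p).2 - f 1 p.1 p.2
  let a' : Pq r s → ℤ := fun p => ((4 * (5 * (2 * gf p + gf (m1 p)))).val : ℤ)
  let b' : Pq r s → ℤ := fun p => ((4 * (5 * (2 * kf p + kf (m2 p)))).val : ℤ)
  have ha' : ∀ p, ((a' p : ℤ) : ZMod 7) = 4 * (5 * (2 * gf p + gf (m1 p))) := by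
    intro p
    show ((((4 * (5 * (2 * gf p + gf (m1 p)))).val : ℤ)) : ZMod 7) = _
    push_cast
    exact ZMod.natCast_zmod_val _
  have hb' : ∀ p, ((b' p : ℤ) : ZMod 7) = 4 * (5 * (2 * kf p + kf (m2 p))) := by
    intro p
    show ((((4 * (5 * (2 * kf p + kf (m2 p)))).val : ℤ)) : ZMod 7) = _
    push_cast
    exact ZMod.natCast_zmod_val _
  have h7 : (7 : ZMod 7) = 0 := by decide
  have q1 : ∀ p : Pq r s, gf p + gf (m1 p) + gf (m1 (m1 p)) = 0 := by
    intro p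
    have h := hf1 p.1 p.2
    have h' : f 1 p.1 p.2 + f 1 (m1 p).1 (m1 p).2 +
      f 1 (mu 3 (-1) 1 (-2) p).1 (mu 3 (-1) 1 (-2) p).2 = 0 := h
    rw [← m11 ht p] at h'
    exact h'
  have q2 : ∀ p : Pq r s, kf p + kf (m2 p) + kf (m2 (m2 p)) = 0 := by
    intro p
    have h := hf2 p.1 p.2
    have h' : f 0 p.1 p.2 + f 0 (mT p).1 (mT p).2 - f 1 p.1 p.2 +
      (f 0 (m2 p).1 (m2 p).2 + f 0 (mu 5 2 1 3 p).1 (mu 5 2 1 3 p).2 -
        f 1 (m2 p).1 (m2 p).2) +
      (f 0 (mu 4 (-3) 1 (-5) p).1 (mu 4 (-3) 1 (-5) p).2 +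
        f 0 (mu 4 1 1 2 p).1 (mu 4 1 1 2 p).2 -
        f 1 (mu 4 (-3) 1 (-5) p).1 (mu 4 (-3) 1 (-5) p).2) = 0 := h
    rw [← mT2 ht p, ← mT22 ht p, ← m22 ht p] at h'
    exact h'
  let h : Pq r s → ℤ := fun p => (a' p - a' (m1 p)) + (b' p - b' (m2 p))
  let F1 : Pq r s → ℤ := fun p => 2 * (a' p - a' (m1 p))
  let K : Pq r s → ℤ := fun p => 2 * (b' p - b' (m2 p))
  have hFK : ∀ p, sol h p + sol h (mT p) - F1 p = K p := by
    intro p
    rw [sol_add ht]
    show 2 * ((a' p - a' (m1 p)) + (b' p - b' (m2 p))) - 2 * (a' p - a' (m1 p)) =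
      2 * (b' p - b' (m2 p))
    ring
  have r1 : ∀ p, ((F1 p : ℤ) : ZMod 7) = gf p := by
    intro p
    show ((2 * (a' p - a' (m1 p)) : ℤ) : ZMod 7) = gf p
    push_cast
    rw [ha', ha']
    have a1 := q1 p
    linear_combination (17 * gf p) * h7 - 40 * a1
  have r2 : ∀ p, ((K p : ℤ) : ZMod 7) = kf p := by
    intro p
    show ((2 * (b' p - b' (m2 p)) : ℤ) : ZMod 7) = kf p
    push_cast
    rw [hb', hb']
    have a1 := q2 p
    linear_combination (17 * kf p) * h7 - 40 * a1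
  have r0 : ∀ p : Pq r s, ((sol h p : ℤ) : ZMod 7) = f 0 p.1 p.2 := by
    intro p
    have h1 := inj_T ht (fun p : Pq r s => ((sol h p : ℤ) : ZMod 7) - f 0 p.1 p.2) (by
      intro p
      have e1 : ((sol h p + sol h (mT p) - F1 p : ℤ) : ZMod 7) = ((K p : ℤ) : ZMod 7) := by
        rw [hFK p]
      rw [r2 p] at e1
      push_cast at e1
      rw [r1 p] at e1
      have a3 : kf p = f 0 p.1 p.2 + f 0 (mT p).1 (mT p).2 - gf p := rfl
      show ((sol h p : ℤ) : ZMod 7) - f 0 p.1 p.2 +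
        (((sol h (mT p) : ℤ) : ZMod 7) - f 0 (mT p).1 (mT p).2) = 0
      linear_combination e1 + a3) p
    exact sub_eq_zero.1 h1
  refine ⟨![fun x y => sol h (x, y), fun x y => F1 (x, y)], ⟨?_, ?_⟩, ?_⟩
  · intro x y
    show 2 * (a' (x, y) - a' (m1 (x, y))) + 2 * (a' (m1 (x, y)) - a' (m1 (m1 (x, y)))) +
      2 * (a' (mu 3 (-1) 1 (-2) (x, y)) - a' (m1 (mu 3 (-1) 1 (-2) (x, y)))) = 0
    rw [← m11 ht, m111 ht]
    ring
  · intro x y
    have h1 := hFK (x, y)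
    have h2 := hFK (m2 (x, y))
    have h3 := hFK (m2 (m2 (x, y)))
    show sol h (x, y) + sol h (mT (x, y)) - F1 (x, y) +
      (sol h (m2 (x, y)) + sol h (mu 5 2 1 3 (x, y)) - F1 (m2 (x, y))) +
      (sol h (mu 4 (-3) 1 (-5) (x, y)) + sol h (mu 4 1 1 2 (x, y)) -
        F1 (mu 4 (-3) 1 (-5) (x, y))) = 0
    rw [← mT2 ht, ← mT22 ht, ← m22 ht, h1, h2, h3]
    show 2 * (b' (x, y) - b' (m2 (x, y))) + 2 * (b' (m2 (x, y)) - b' (m2 (m2 (x, y)))) +
      2 * (b' (m2 (m2 (x, y))) - b' (m2 (m2 (m2 (x, y))))) = 0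
    rw [m222 ht]
    ring
  · intro i x y
    fin_cases i
    · exact r0 (x, y)
    · exact r1 (x, y)

end Pool.Agent.Helper89.TL7
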